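import Pool.Agent.helper92.ISA.Spec

set_option autoImplicit false

open Filter Topology

namespace Pool.Agent.ISA

open Pool.Agent.PB Pool.Agent.ISO

/-- polynomially bounded -/
def PB2_P (f : ℕ → ℕ) : Prop := ∃ c : ℕ, ∀ n, f n ≤ n ^ c + c

theorem PB2_mono {f g : ℕ → ℕ} (h : PB2_P g) (hfg : ∀ n, f n ≤ g n) : PB2_P f := by
  obtain ⟨c, hc⟩ := h
  exact ⟨c, fun n => (hfg n).trans (hc n)⟩

theorem PB2_const (k : ℕ) : PB2_P (fun _ => k) := ⟨k, fun _ => Nat.le_add_left _ _⟩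

theorem PB2_id : PB2_P (fun n => n) := ⟨1, fun n => by simp⟩


theorem PB2_add {f g : ℕ → ℕ} (hf : PB2_P f) (hg : PB2_P g) : PB2_P (fun n => f n + g n) := by
  obtain ⟨a, ha⟩ := hf
  obtain ⟨b, hb⟩ := hg
  refine ⟨a + b + 2, fun n => ?_⟩
  have h1 := ha n
  have h2 := hb n
  rcases Nat.lt_or_ge n 2 with hn | hn
  · have h3 : n ^ a ≤ 1 := pow_le_one₀ (Nat.zero_le _) (by omega)
    have h4 : n ^ b ≤ 1 := pow_le_one₀ (Nat.zero_le _) (by omega)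
    show f n + g n ≤ n ^ (a + b + 2) + (a + b + 2)
    omega
  · have h3 : n ^ a ≤ n ^ (a + b) := Nat.pow_le_pow_right (by omega) (by omega)
    have h4 : n ^ b ≤ n ^ (a + b) := Nat.pow_le_pow_right (by omega) (by omega)
    have h5 : 2 * n ^ (a + b) ≤ n ^ (a + b + 1) := by
      rw [pow_succ, mul_comm]
      exact Nat.mul_le_mul_left _ hn
    have h6 : n ^ (a + b + 1) ≤ n ^ (a + b + 2) := Nat.pow_le_pow_right (by omega) (by omega)
    show f n + g n ≤ n ^ (a + b + 2) + (a + b + 2)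
    omega

theorem PB2_mul {f g : ℕ → ℕ} (hf : PB2_P f) (hg : PB2_P g) : PB2_P (fun n => f n * g n) := by
  obtain ⟨a, ha⟩ := hf
  obtain ⟨b, hb⟩ := hg
  refine ⟨2 * a + 2 * b + (1 + a) * (1 + b), fun n => ?_⟩
  have h1 := ha n
  have h2 := hb n
  have h0 : f n * g n ≤ (n ^ a + a) * (n ^ b + b) := Nat.mul_le_mul h1 h2
  rcases Nat.lt_or_ge n 2 with hn | hn
  · have h3 : n ^ a ≤ 1 := pow_le_one₀ (Nat.zero_le _) (by omega)
    have h4 : n ^ b ≤ 1 := pow_le_one₀ (Nat.zero_le _) (by omega)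
    have h5 : (n ^ a + a) * (n ^ b + b) ≤ (1 + a) * (1 + b) := Nat.mul_le_mul (by omega) (by omega)
    show f n * g n ≤ n ^ (2 * a + 2 * b + (1 + a) * (1 + b)) + (2 * a + 2 * b + (1 + a) * (1 + b))
    omega
  · have p1 : 1 ≤ n ^ a := Nat.one_le_pow _ _ (by omega)
    have p2 : 1 ≤ n ^ b := Nat.one_le_pow _ _ (by omega)
    have q1 : 1 + a ≤ 2 ^ a := by
      have := Nat.lt_two_pow_self (n := a)
      omega
    have q2 : 1 + b ≤ 2 ^ b := by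
      have := Nat.lt_two_pow_self (n := b)
      omega
    have r1 : 2 ^ a ≤ n ^ a := Nat.pow_le_pow_left hn a
    have r2 : 2 ^ b ≤ n ^ b := Nat.pow_le_pow_left hn b
    have s1 : n ^ a + a ≤ n ^ a * n ^ a := by nlinarith
    have s2 : n ^ b + b ≤ n ^ b * n ^ b := by nlinarith
    have h5 : (n ^ a + a) * (n ^ b + b) ≤ n ^ (2 * a + 2 * b) := by
      calc (n ^ a + a) * (n ^ b + b) ≤ (n ^ a * n ^ a) * (n ^ b * n ^ b) := Nat.mul_le_mul s1 s2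
        _ = n ^ (2 * a + 2 * b) := by ring
    have h6 : n ^ (2 * a + 2 * b) ≤ n ^ (2 * a + 2 * b + (1 + a) * (1 + b)) := Nat.pow_le_pow_right (by omega) (by omega)
    show f n * g n ≤ n ^ (2 * a + 2 * b + (1 + a) * (1 + b)) + (2 * a + 2 * b + (1 + a) * (1 + b))
    omega

theorem PB2_poly (m w s : ℕ → ℕ) (D : ℕ) (hm : PB2_P m) (hw : PB2_P w) (hs : PB2_P s) :
    PB2_P (fun n => (4 * (m n * m n) * (2 * (m n * m n) * D) * (D * D) + 1) * (n * (D * D) + 1) +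
      (s n + 100 * (2 * (m n * m n) * D) * (2 * (m n * m n) * D) * ((w n + 1) * (w n + 1)) + 10)) := by
  have hmm := PB2_mul hm hm
  have hR : PB2_P (fun n => 2 * (m n * m n) * D) := PB2_mul (PB2_mul (PB2_const 2) hmm) (PB2_const D)
  have hw1 : PB2_P (fun n => w n + 1) := PB2_add hw (PB2_const 1)
  exact PB2_add (PB2_mul (PB2_add (PB2_mul (PB2_mul (PB2_mul (PB2_const 4) hmm) hR) (PB2_const (D * D))) (PB2_const 1))
    (PB2_add (PB2_mul PB2_id (PB2_const (D * D))) (PB2_const 1)))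
    (PB2_add (PB2_add hs (PB2_mul (PB2_mul (PB2_mul (PB2_const 100) hR) hR) (PB2_mul hw1 hw1))) (PB2_const 10))

/-- the choice of the parameters for one `n` -/
theorem PB2_one (n m D : ℕ) (δ θ : ℝ) (hδ : 0 < δ) (hδ1 : δ ≤ 1 / 16) (hD : 1 / δ ≤ D) (hm : 1 ≤ m) (hθ : 0 < θ)
    (hθ1 : θ ≤ 1) (hθl : 1 / 2 ≤ θ * (Real.log (2 * m) + 1)) :
    ∃ r k1 k2 : ℕ, 1 ≤ k1 ∧ 1 ≤ k2 ∧ 2 ^ r ≤ 2 * (m * m) * D ∧ (m : ℝ) ^ 2 ≤ δ * 2 ^ r ∧
      k1 ≤ 4 * (m * m) * (2 * (m * m) * D) * (D * D) + 1 ∧ k2 ≤ n * (D * D) + 1 ∧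
      (m : ℝ) * Real.log (2 ^ r + 1) / δ ≤ δ * θ * k1 ∧ (n : ℝ) * Real.log 2 / δ ≤ δ * k2 := by
  have hm' : (1 : ℝ) ≤ m := by exact_mod_cast hm
  have hD0 : (0 : ℝ) < D := lt_of_lt_of_le (by positivity) hD
  have hD1 : 1 ≤ D := by
    have : 0 < D := by exact_mod_cast hD0
    exact this
  have hδD : 1 ≤ δ * D := by
    rw [div_le_iff₀ hδ] at hD
    linarith
  set X : ℕ := m * m * D with hX
  have hX1 : 1 ≤ X := Nat.mul_pos (Nat.mul_pos hm hm) hD1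
  have hXr : (m : ℝ) ^ 2 ≤ δ * X := by
    have : (m : ℝ) ^ 2 * 1 ≤ (m : ℝ) ^ 2 * (δ * D) := mul_le_mul_of_nonneg_left hδD (by positivity)
    calc (m : ℝ) ^ 2 = (m : ℝ) ^ 2 * 1 := by ring
      _ ≤ (m : ℝ) ^ 2 * (δ * D) := this
      _ = δ * X := by rw [hX]; push_cast; ring
  obtain ⟨r, hr1, hr2⟩ : ∃ r : ℕ, X ≤ 2 ^ r ∧ 2 ^ r ≤ 2 * X := by
    refine ⟨Nat.log 2 X + 1, (Nat.lt_pow_succ_log_self (by norm_num) X).le, ?_⟩
    rw [pow_succ, mul_comm]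
    exact Nat.mul_le_mul_left _ (Nat.pow_log_le_self 2 (by omega))
  have hr2' : 2 ^ r ≤ 2 * (m * m) * D := by
    calc 2 ^ r ≤ 2 * X := hr2
      _ = 2 * (m * m) * D := by rw [hX]; ring
  have hlog : Real.log (2 ^ r + 1) ≤ (2 : ℝ) ^ r := by
    have := Real.log_le_sub_one_of_pos (show (0 : ℝ) < 2 ^ r + 1 by positivity)
    linarith
  have hlog0 : 0 ≤ Real.log ((2 : ℝ) ^ r + 1) := Real.log_nonneg (by
    have : (0 : ℝ) ≤ 2 ^ r := by positivity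
    linarith)
  have hinv : 1 / θ ≤ 4 * m := by
    have h1 : Real.log (2 * m) ≤ 2 * m - 1 := Real.log_le_sub_one_of_pos (by positivity)
    have h2 : θ * (Real.log (2 * m) + 1) ≤ θ * (2 * m) := mul_le_mul_of_nonneg_left (by linarith) hθ.le
    rw [div_le_iff₀ hθ]
    nlinarith
  have hδ2 : 1 / δ ^ 2 ≤ (D : ℝ) * D := by
    have h0 : (0 : ℝ) ≤ 1 / δ := by positivity
    calc 1 / δ ^ 2 = (1 / δ) * (1 / δ) := by field_simp
      _ ≤ (D : ℝ) * D := mul_le_mul hD hD h0 hD0.le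
  set x1 : ℝ := (m : ℝ) * Real.log (2 ^ r + 1) * (1 / δ ^ 2) * (1 / θ) with hx1
  set x2 : ℝ := (n : ℝ) * Real.log 2 * (1 / δ ^ 2) with hx2
  have hx1b : x1 ≤ ((4 * (m * m) * (2 * (m * m) * D) * (D * D) : ℕ) : ℝ) := by
    have hr3 : (2 : ℝ) ^ r ≤ 2 * (m * m) * D := by exact_mod_cast hr2'
    calc x1 ≤ (m : ℝ) * (2 * (m * m) * D) * ((D : ℝ) * D) * (4 * m) := by
          rw [hx1]
          apply mul_le_mul _ hinv (by positivity) (by positivity)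
          apply mul_le_mul _ hδ2 (by positivity) (by positivity)
          exact mul_le_mul_of_nonneg_left (hlog.trans hr3) (by positivity)
      _ = ((4 * (m * m) * (2 * (m * m) * D) * (D * D) : ℕ) : ℝ) := by push_cast; ring
  have hx2b : x2 ≤ ((n * (D * D) : ℕ) : ℝ) := by
    have hl2 : Real.log 2 ≤ 1 := by
      have := Real.log_le_sub_one_of_pos (show (0 : ℝ) < 2 by norm_num)
      linarith
    have hl20 : 0 ≤ Real.log 2 := Real.log_nonneg (by norm_num)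
    calc x2 ≤ (n : ℝ) * 1 * ((D : ℝ) * D) := by
          rw [hx2]
          apply mul_le_mul _ hδ2 (by positivity) (by positivity)
          exact mul_le_mul_of_nonneg_left hl2 (Nat.cast_nonneg n)
      _ = ((n * (D * D) : ℕ) : ℝ) := by push_cast; ring
  refine ⟨r, ⌈x1⌉₊ + 1, ⌈x2⌉₊ + 1, by omega, by omega, hr2', ?_, ?_, ?_, ?_, ?_⟩
  · have h1 : (X : ℝ) ≤ 2 ^ r := by exact_mod_cast hr1
    exact hXr.trans (mul_le_mul_of_nonneg_left h1 hδ.le)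
  · have := Nat.ceil_le.mpr hx1b
    omega
  · have := Nat.ceil_le.mpr hx2b
    omega
  · have h1 : x1 ≤ ((⌈x1⌉₊ + 1 : ℕ) : ℝ) := by
      push_cast
      linarith [Nat.le_ceil x1]
    have h2 : (m : ℝ) * Real.log (2 ^ r + 1) / δ = δ * θ * x1 := by
      rw [hx1]
      field_simp
    rw [h2]
    exact mul_le_mul_of_nonneg_left h1 (by positivity)
  · have h1 : x2 ≤ ((⌈x2⌉₊ + 1 : ℕ) : ℝ) := by
      push_cast
      linarith [Nat.le_ceil x2]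
    have h2 : (n : ℝ) * Real.log 2 / δ = δ * x2 := by
      rw [hx2]
      field_simp
    rw [h2]
    exact mul_le_mul_of_nonneg_left h1 hδ.le

theorem PB2_proof (hTHA : THA_stmt) (hPB1 : ISA.PB1_stmt) : ISA.PB2_stmt := by
  intro ε m A p c hε hm hmc hA hp w V c₁ hV
  -- without loss `ε ≤ 1/2`
  obtain ⟨e, he0, he1, hee⟩ : ∃ e : ℝ, 0 < e ∧ e ≤ 1 / 2 ∧ e ≤ ε :=
    ⟨min ε (1 / 2), lt_min hε (by norm_num), min_le_right _ _, min_le_left _ _⟩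
  have hp' : ∀ n, p n ≤ (1 - e) * crit (m n) (A n) := by
    intro n
    have h0 : 0 < crit (m n) (A n) := (hTHA (m n) (A n) (hm n) (hA n)).2.2.1
    have h1 := hp n
    nlinarith
  set δ : ℝ := e / 8 with hδ
  have hδ0 : 0 < δ := by positivity
  have hδ1 : δ ≤ 1 / 16 := by
    rw [hδ]; linarith
  obtain ⟨D, hD⟩ := exists_nat_ge (1 / δ)
  obtain ⟨c', hc'⟩ := PB2_poly m w (fun n => n ^ c₁ + c₁) D ⟨c, hmc⟩ ⟨c₁, fun n => (hV n).1⟩ ⟨c₁, fun n => le_rfl⟩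
  refine ⟨c', fun n => ?_⟩
  obtain ⟨-, -, hθ0, hθ1, hθl, -⟩ := hTHA (m n) (A n) (hm n) (hA n)
  set θ : ℝ := crit (m n) (A n) with hθ
  obtain ⟨r, k1, k2, hk1, hk2, hr, hmr, hk1b, hk2b, hl1, hl2⟩ := PB2_one n (m n) D δ θ hδ0 hδ1 hD (hm n) hθ0 hθ1 hθl
  have hpr : (0 : ℝ) < 2 ^ r := by positivity
  have hk1' : (1 : ℝ) ≤ k1 := by exact_mod_cast hk1
  have hk2' : (1 : ℝ) ≤ k2 := by exact_mod_cast hk2
  -- the two lower bounds
  have hb1 : (1 - 2 * δ) * θ * k1 ≤ (1 - δ) * crit (m n) (A n) * k1 - m n * Real.log (2 ^ r + 1) / δ := by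
    rw [← hθ]
    linarith
  have hq : (m n : ℝ) ^ 2 / (2 * 2 ^ r) ≤ δ / 2 := by
    rw [div_le_iff₀ (by positivity)]
    linarith
  have hb2 : (1 - 3 * δ) * k2 ≤ (1 - δ) * (1 - (m n : ℝ) ^ 2 / (2 * 2 ^ r)) * k2 - n * Real.log 2 / δ := by
    have h1 : (1 - δ) * (1 - δ / 2) * k2 ≤ (1 - δ) * (1 - (m n : ℝ) ^ 2 / (2 * 2 ^ r)) * k2 := by
      apply mul_le_mul_of_nonneg_right _ (by positivity)
      exact mul_le_mul_of_nonneg_left (by linarith) (by linarith)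
    have h2 : 0 ≤ δ * k2 := by positivity
    have h3 : 0 ≤ δ ^ 2 * k2 := by positivity
    have h4 : (1 - δ) * (1 - δ / 2) * k2 = k2 - 3 / 2 * (δ * k2) + 1 / 2 * (δ ^ 2 * k2) := by ring
    have h5 : (1 - 3 * δ) * k2 = k2 - 3 * (δ * k2) := by ring
    rw [h4] at h1
    rw [h5]
    linarith
  have hn1 : 0 ≤ (1 - 2 * δ) * θ * k1 := by
    have : 0 ≤ 1 - 2 * δ := by linarith
    positivity
  have hn2 : 0 ≤ (1 - 3 * δ) * k2 := by
    have : 0 ≤ 1 - 3 * δ := by linarith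
    positivity
  refine hPB1 n (w n) r (n ^ c₁ + c₁) (m n) k1 k2 (n ^ c' + c') (A n) (V n) δ (p n) (hm n) (hA n) hδ0 (by linarith) hk1 hk2 ?_ (hV n).2 ?_
    (hn1.trans hb1) (hn2.trans hb2) ?_
  · nlinarith
  · have hcn : (4 * (m n * m n) * (2 * (m n * m n) * D) * (D * D) + 1) * (n * (D * D) + 1) +
        (n ^ c₁ + c₁ + 100 * (2 * (m n * m n) * D) * (2 * (m n * m n) * D) * ((w n + 1) * (w n + 1)) + 10) ≤ n ^ c' + c' := hc' n
    have h1 : k1 * k2 ≤ (4 * (m n * m n) * (2 * (m n * m n) * D) * (D * D) + 1) * (n * (D * D) + 1) := Nat.mul_le_mul hk1b hk2b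
    have hr1 : r + 1 ≤ 2 ^ r := by
      have := Nat.lt_two_pow_self (n := r)
      omega
    have h2 : 100 * 2 ^ r * (r + 1) * (w n + 1) ^ 2 ≤
        100 * (2 * (m n * m n) * D) * (2 * (m n * m n) * D) * ((w n + 1) * (w n + 1)) := by
      rw [sq]
      apply Nat.mul_le_mul_right
      exact Nat.mul_le_mul (Nat.mul_le_mul_left _ hr) (hr1.trans hr)
    omega
  · have h1 : (1 - e) * θ * (k1 * k2) ≤ ((1 - 2 * δ) * θ * k1) * ((1 - 3 * δ) * k2) := by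
      have h2 : 1 - e ≤ (1 - 2 * δ) * (1 - 3 * δ) := by
        rw [hδ]; nlinarith
      calc (1 - e) * θ * (k1 * k2) = (1 - e) * (θ * k1 * k2) := by ring
        _ ≤ ((1 - 2 * δ) * (1 - 3 * δ)) * (θ * k1 * k2) := mul_le_mul_of_nonneg_right h2 (by positivity)
        _ = ((1 - 2 * δ) * θ * k1) * ((1 - 3 * δ) * k2) := by ring
    calc p n * ((k1 * k2 : ℕ) : ℝ) ≤ (1 - e) * θ * ((k1 * k2 : ℕ) : ℝ) := mul_le_mul_of_nonneg_right (hp' n) (Nat.cast_nonneg _)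
      _ = (1 - e) * θ * (k1 * k2) := by push_cast; ring
      _ ≤ ((1 - 2 * δ) * θ * k1) * ((1 - 3 * δ) * k2) := h1
      _ ≤ _ := mul_le_mul hb1 hb2 hn2 (hn1.trans hb1)

end Pool.Agent.ISA
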